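import Pool.Agent.H180.FF.Stmts
import Pool.Agent.Q283.TW.Dens
import Pool.Agent.Q283.TW.Frob
import Pool.Agent.Q210.RS.Comm
import Pool.Agent.Q6.RS.Cheb0

/-!
# The density of the primes at which a Redei symbol is `-1`
-/

set_option linter.unusedSectionVars false
set_option autoImplicit false

namespace Pool.Agent.Q190.FF

open NumberField Finset Filter Topology Pool.Agent.W401.Cheb Pool.Agent.H180.RS

section card

variable {K L : Type} [Field K] [NumberField K] [Field L] [NumberField L] [IsGalois ℚ L]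
  (i : K →+* L) (θ : L)

/-- the automorphisms which are trivial on `K` and change the sign of `θ` -/
def Cs : Set Gal(L/ℚ) := {g | (∀ w : K, g (i w) = i w) ∧ g θ = -θ}

theorem card_Cs {β : K} (hθ : θ ^ 2 = i β) (hβ : ¬ IsSquare β) :
    Nat.card (Cs i θ) * (2 * Module.finrank ℚ K) = Nat.card Gal(L/ℚ) := by
  classical
  have hθ0 : θ ≠ 0 := by
    intro h
    apply hβ
    refine ⟨0, i.injective ?_⟩
    rw [← hθ, h, mul_zero, map_zero]
    ring
  have hg2 : ∀ g : Gal(L/ℚ), (∀ w : K, g (i w) = i w) → g θ = θ ∨ g θ = -θ := by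
    intro g hg
    have h1 : (g θ) ^ 2 = θ ^ 2 := by rw [← map_pow, hθ, hg]
    exact sq_eq_sq_iff_eq_or_eq_neg.mp h1
  have hne : ∀ z : L, z = θ → z = -θ → False := by
    intro z h1 h2
    rw [h1] at h2
    have h3 : (2 : L) * θ = 0 := by linear_combination h2
    rcases mul_eq_zero.mp h3 with h | h
    · exact two_ne_zero h
    · exact hθ0 h
  obtain ⟨g0, hg0, hg0'⟩ : ∃ g0 : Gal(L/ℚ), (∀ w : K, g0 (i w) = i w) ∧ g0 θ = -θ := by
    by_contra hcon
    push Not at hcon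
    obtain ⟨e, he⟩ := Pool.Agent.Q6.RS.gal_range i θ (fun g hg => by
      rcases hg2 g hg with h | h
      · exact h
      · exact absurd h (hcon g hg))
    apply hβ
    refine ⟨e, i.injective ?_⟩
    rw [map_mul, he, ← hθ]
    ring
  let iA : K →ₐ[ℚ] L := i.toRatAlgHom
  let F : IntermediateField ℚ L := iA.fieldRange
  have h1 : Nat.card F.fixingSubgroup = Module.finrank F L :=
    IsGalois.card_fixingSubgroup_eq_finrank F
  have h2 : Module.finrank ℚ K = Module.finrank ℚ F :=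
    (AlgEquiv.ofInjectiveField iA).toLinearEquiv.finrank_eq
  have h3 : Module.finrank ℚ F * Module.finrank F L = Module.finrank ℚ L :=
    Module.finrank_mul_finrank ℚ F L
  have h4 : Nat.card Gal(L/ℚ) = Module.finrank ℚ L := IsGalois.card_aut_eq_finrank ℚ L
  have hfin : Finite Gal(L/ℚ) := inferInstance
  set Hs : Set Gal(L/ℚ) := {g | ∀ w : K, g (i w) = i w} with hHs
  set H' : Set Gal(L/ℚ) := {g | (∀ w : K, g (i w) = i w) ∧ g θ = θ} with hH'
  have h5 : Nat.card F.fixingSubgroup = Hs.ncard := by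
    have : (F.fixingSubgroup : Set Gal(L/ℚ)) = Hs := by
      ext g
      rw [SetLike.mem_coe, IntermediateField.mem_fixingSubgroup_iff]
      constructor
      · intro h w
        exact h (i w) ⟨w, rfl⟩
      · rintro h _ ⟨w, rfl⟩
        exact h w
    rw [← this]
    rfl
  have h6 : Hs = Cs i θ ∪ H' := by
    ext g
    constructor
    · intro hg
      rcases hg2 g hg with h | h
      · exact Or.inr ⟨hg, h⟩
      · exact Or.inl ⟨hg, h⟩
    · rintro (h | h)
      · exact h.1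
      · exact h.1
  have h7 : Disjoint (Cs i θ) H' := by
    rw [Set.disjoint_left]
    intro g hg hg'
    exact hne _ hg'.2 hg.2
  have h8 : H' = (fun g => g0 * g) '' (Cs i θ) := by
    ext g
    constructor
    · intro hg
      refine ⟨g0⁻¹ * g, ⟨fun w => ?_, ?_⟩, ?_⟩
      · show g0⁻¹ (g (i w)) = i w
        rw [hg.1]
        apply g0.injective
        show g0 (g0.symm (i w)) = g0 (i w)
        rw [g0.apply_symm_apply, hg0]
      · show g0⁻¹ (g θ) = -θ
        rw [hg.2]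
        apply g0.injective
        show g0 (g0.symm θ) = g0 (-θ)
        rw [g0.apply_symm_apply, map_neg, hg0', neg_neg]
      · show g0 * (g0⁻¹ * g) = g
        rw [mul_inv_cancel_left]
    · rintro ⟨h, hh, rfl⟩
      refine ⟨fun w => ?_, ?_⟩
      · show g0 (h (i w)) = i w
        rw [hh.1, hg0]
      · show g0 (h θ) = θ
        rw [hh.2, map_neg, hg0', neg_neg]
  have h9 : Hs.ncard = Nat.card (Cs i θ) * 2 := by
    rw [h6, Set.ncard_union_eq h7, h8, Set.ncard_image_of_injective _ (mul_right_injective g0)]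
    show (Cs i θ).ncard + (Cs i θ).ncard = (Cs i θ).ncard * 2
    ring
  rw [h4, ← h3, ← h1, h5, h9, h2]
  ring

end card

section frob

variable {K L : Type} [Field K] [NumberField K] [Field L] [NumberField L] [IsGalois ℚ L]
  (i : K →+* L) {ℓ : ℕ} [Fact ℓ.Prime]

theorem fix_of_root {M : ℕ} [NeZero M] [IsCyclotomicExtension {M} ℚ K] {ζ : K}
    (hζ : IsPrimitiveRoot ζ M) {g : Gal(L/ℚ)} (h : g (i ζ) = i ζ) (w : K) : g (i w) = i w := by
  let iA : K →ₐ[ℚ] L := i.toRatAlgHom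
  let f : K →ₐ[ℚ] L := (g : L →ₐ[ℚ] L).comp iA
  have h1 : f = iA := by
    apply (hζ.powerBasis ℚ).algHom_ext
    rw [hζ.powerBasis_gen ℚ]
    exact h
  exact congrArg (fun F : K →ₐ[ℚ] L => F w) h1

/-- the prime is `1` modulo `M` if and only if the Frobenius element is trivial on `K` -/
theorem frob_root {M : ℕ} [NeZero M] [IsCyclotomicExtension {M} ℚ K] {ζ : K}
    (hζ : IsPrimitiveRoot ζ M) (hM : ¬ ℓ ∣ M) {φ : 𝓞 L →+* AlgebraicClosure (ZMod ℓ)}
    {g : Gal(L/ℚ)} (hφ : HasFrob ℓ φ g) : M ∣ ℓ - 1 ↔ ∀ w : K, g (i w) = i w := by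
  have hℓ : ℓ.Prime := Fact.out
  have hM0 : 0 < M := Nat.pos_of_ne_zero (NeZero.ne M)
  have hZL : IsPrimitiveRoot (i ζ) M := hζ.map_of_injective i.injective
  have hinj : Function.Injective (algebraMap (𝓞 L) L) := RingOfIntegers.coe_injective
  obtain ⟨Z, hZ⟩ : ∃ Z : 𝓞 L, algebraMap (𝓞 L) L Z = i ζ := ⟨⟨i ζ, hZL.isIntegral hM0⟩, rfl⟩
  have hZp : IsPrimitiveRoot Z M :=
    IsPrimitiveRoot.of_map_of_injective (f := algebraMap (𝓞 L) L) (by rw [hZ]; exact hZL) hinj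
  have hMΩ : ((M : ℕ) : AlgebraicClosure (ZMod ℓ)) ≠ 0 := by
    intro h
    rw [CharP.cast_eq_zero_iff (AlgebraicClosure (ZMod ℓ)) ℓ] at h
    exact hM h
  have : NeZero ((M : ℕ) : AlgebraicClosure (ZMod ℓ)) := ⟨hMΩ⟩
  have hφZ : IsPrimitiveRoot (φ Z) M := by
    rw [← Polynomial.isRoot_cyclotomic_iff]
    have h1 : (Polynomial.cyclotomic M (𝓞 L)).IsRoot Z := hZp.isRoot_cyclotomic hM0
    have h2 := h1.map (f := φ)
    rwa [Polynomial.map_cyclotomic] at h2
  have hpow : ℓ - 1 + 1 = ℓ := Nat.sub_add_cancel hℓ.one_lt.le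
  constructor
  · intro hd
    apply fix_of_root i hζ
    obtain ⟨a, -, ha⟩ := hZL.eq_pow_of_pow_eq_one (ξ := g (i ζ)) (by
      rw [← map_pow, hZL.pow_eq_one, map_one])
    have h1 : g • Z = Z ^ a := by
      apply hinj
      rw [Q283.TW.coe_smul', hZ, map_pow, hZ, ha]
    have h2 := hφ Z
    rw [h1, map_pow] at h2
    have h3 : φ Z ^ ℓ = φ Z := by
      obtain ⟨c, hc⟩ := hd
      calc φ Z ^ ℓ = φ Z ^ (ℓ - 1 + 1) := congrArg (fun n => φ Z ^ n) hpow.symm
        _ = φ Z := by rw [pow_succ, hc, pow_mul, hφZ.pow_eq_one, one_pow, one_mul]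
    rw [h3] at h2
    have h4 : φ Z ^ (a + (M - 1)) = 1 := by
      rw [pow_add, h2, ← pow_succ', Nat.sub_add_cancel hM0, hφZ.pow_eq_one]
    have h5 := hφZ.dvd_of_pow_eq_one _ h4
    obtain ⟨c, hc⟩ := h5
    have h6 : (i ζ) ^ (a + (M - 1)) = 1 := by
      rw [hc, pow_mul, hZL.pow_eq_one, one_pow]
    rw [← ha]
    calc (i ζ) ^ a = (i ζ) ^ a * (i ζ) ^ M := by rw [hZL.pow_eq_one, mul_one]
      _ = (i ζ) ^ (a + (M - 1)) * i ζ := by
          rw [← pow_add, ← pow_succ]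
          congr 1
          omega
      _ = i ζ := by rw [h6, one_mul]
  · intro hg
    have h1 : g • Z = Z := by
      apply hinj
      rw [Q283.TW.coe_smul', hZ, hg]
    have h2 := hφ Z
    rw [h1] at h2
    have h3 : φ Z ^ (ℓ - 1) = 1 := by
      have h4 : φ Z ≠ 0 := hφZ.ne_zero hM0.ne'
      have h5 : φ Z ^ (ℓ - 1) * φ Z = 1 * φ Z := by
        rw [← pow_succ, one_mul]
        exact (congrArg (fun n => φ Z ^ n) hpow).trans h2.symm
      exact mul_right_cancel₀ h4 h5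
    exact hφZ.dvd_of_pow_eq_one _ h3

/-- the Redei symbol and the Frobenius element -/
theorem frob_symbol {ρ : K} {A x y z : ℤ}
    {q : ℕ} (hρ : ρ ^ 2 = (A : K)) {θ : L} (hθ : θ ^ 2 = i ((x : K) + y * ρ))
    (hxy : x ^ 2 - A * y ^ 2 = q * z ^ 2) (h2 : ℓ ≠ 2) (hqz : (((q : ℤ) * z ^ 2 : ℤ) : ZMod ℓ) ≠ 0)
    (hq : IsSquare ((q : ℕ) : ZMod ℓ)) {φ : 𝓞 L →+* AlgebraicClosure (ZMod ℓ)}
    {g : Gal(L/ℚ)} (hφ : HasFrob ℓ φ g) (hg : ∀ w : K, g (i w) = i w) :
    (∀ r : ZMod ℓ, r ^ 2 = (A : ZMod ℓ) → ¬ IsSquare ((x : ZMod ℓ) + y * r)) ↔ g θ = -θ := by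
  have hℓ : ℓ.Prime := Fact.out
  have hinj : Function.Injective (algebraMap (𝓞 L) L) := RingOfIntegers.coe_injective
  have hρL : (i ρ) ^ 2 = ((A : ℤ) : L) := by rw [← map_pow, hρ, map_intCast]
  have hρI : IsIntegral ℤ (i ρ) := Q283.TW.isInt_sqrt hρL
  obtain ⟨R, hR⟩ : ∃ R : 𝓞 L, algebraMap (𝓞 L) L R = i ρ := ⟨⟨i ρ, hρI⟩, rfl⟩
  have hθ2 : θ ^ 2 = (x : L) + y * i ρ := by
    rw [hθ, map_add, map_mul, map_intCast, map_intCast]
  have hθI : IsIntegral ℤ θ := by
    apply IsIntegral.of_pow (n := 2) two_pos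
    rw [hθ2]
    exact (isIntegral_algebraMap (R := ℤ) (A := L) (x := x)).add
      ((isIntegral_algebraMap (R := ℤ) (A := L) (x := y)).mul hρI)
  obtain ⟨S, hS⟩ : ∃ S : 𝓞 L, algebraMap (𝓞 L) L S = θ := ⟨⟨θ, hθI⟩, rfl⟩
  have hS2 : S ^ 2 = (x : 𝓞 L) + y * R := by
    apply hinj
    rw [map_pow, hS, map_add, map_mul, map_intCast, map_intCast, hR, hθ2]
  have hR2 : R ^ 2 = (A : 𝓞 L) := by
    apply hinj
    rw [map_pow, hR, hρL, map_intCast]
  -- the residue of `ρ`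
  have hgR : g • R = R := by
    apply hinj
    rw [Q283.TW.coe_smul', hR, hg]
  obtain ⟨r, hr⟩ : ∃ r : ZMod ℓ, algebraMap (ZMod ℓ) (AlgebraicClosure (ZMod ℓ)) r = φ R := by
    rw [← Q283.TW.fixed_iff, ← hφ R, hgR]
  have hr2 : r ^ 2 = (A : ZMod ℓ) := by
    apply Q283.TW.cast_inj
    rw [map_pow, hr, ← map_pow, hR2, map_intCast, map_intCast]
  have hφS : φ S ^ 2 = algebraMap (ZMod ℓ) (AlgebraicClosure (ZMod ℓ)) ((x : ZMod ℓ) + y * r) := by
    rw [← map_pow, hS2, map_add, map_mul, map_intCast, map_intCast, map_add, map_mul, map_intCast,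
      map_intCast, hr]
  have hprod : ((x : ZMod ℓ) + y * r) * ((x : ZMod ℓ) - y * r) =
      (((q : ℤ) * z ^ 2 : ℤ) : ZMod ℓ) := by
    rw [← hxy]
    push_cast
    linear_combination (-(y : ZMod ℓ) ^ 2) * hr2
  have hne : (x : ZMod ℓ) + y * r ≠ 0 := by
    intro h
    rw [h, zero_mul] at hprod
    exact hqz hprod.symm
  have hgθ : g θ = θ ∨ g θ = -θ := by
    have h1 : (g θ) ^ 2 = θ ^ 2 := by rw [← map_pow, hθ, hg]
    exact sq_eq_sq_iff_eq_or_eq_neg.mp h1
  constructor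
  · intro h
    rcases hgθ with h1 | h1
    · exfalso
      have h3 : g • S = S := by
        apply hinj
        rw [Q283.TW.coe_smul', hS, h1]
      obtain ⟨s, hs⟩ : ∃ s : ZMod ℓ,
          algebraMap (ZMod ℓ) (AlgebraicClosure (ZMod ℓ)) s = φ S := by
        rw [← Q283.TW.fixed_iff, ← hφ S, h3]
      apply h r hr2
      refine ⟨s, ?_⟩
      apply Q283.TW.cast_inj
      rw [← hφS, ← hs, map_mul]
      ring
    · exact h1
  · intro h
    have h3 : g • S = -S := by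
      apply hinj
      rw [Q283.TW.coe_smul', hS, h, map_neg, hS]
    have h4 : φ S ^ ℓ = -φ S := by rw [← hφ S, h3, map_neg]
    have hφS0 : φ S ≠ 0 := by
      intro h5
      rw [h5] at hφS
      apply hne
      apply Q283.TW.cast_inj
      rw [← hφS, map_zero]
      ring
    have key : ¬ IsSquare ((x : ZMod ℓ) + y * r) := by
      rintro ⟨s, hs⟩
      have h5 : φ S ^ 2 = (algebraMap (ZMod ℓ) (AlgebraicClosure (ZMod ℓ)) s) ^ 2 := by
        rw [hφS, hs, map_mul]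
        ring
      have h6 : φ S ^ ℓ = φ S := by
        rw [Q283.TW.fixed_iff]
        rcases sq_eq_sq_iff_eq_or_eq_neg.mp h5 with h7 | h7
        · exact ⟨s, h7.symm⟩
        · exact ⟨-s, by rw [map_neg, h7]⟩
      rw [h6] at h4
      have h8 : (2 : AlgebraicClosure (ZMod ℓ)) * φ S = 0 := by linear_combination h4
      rcases mul_eq_zero.mp h8 with h9 | h9
      · exact Q283.TW.two_ne h2 h9
      · exact hφS0 h9
    intro r' hr'
    have h5 : r' ^ 2 = r ^ 2 := by rw [hr', hr2]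
    rcases sq_eq_sq_iff_eq_or_eq_neg.mp h5 with h6 | h6
    · rw [h6]; exact key
    · rw [h6]
      intro h7
      apply key
      have h8 : IsSquare ((((q : ℤ) * z ^ 2 : ℤ) : ZMod ℓ)) := by
        push_cast
        exact hq.mul ⟨(z : ZMod ℓ), by ring⟩
      have h9 : (x : ZMod ℓ) - y * r ≠ 0 := by
        intro h
        rw [h, mul_zero] at hprod
        exact hqz hprod.symm
      have h10 : (x : ZMod ℓ) + y * r = (((q : ℤ) * z ^ 2 : ℤ) : ZMod ℓ) / ((x : ZMod ℓ) - y * r) := by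
        rw [eq_div_iff h9, hprod]
      rw [h10]
      have h11 : (x : ZMod ℓ) + y * -r = (x : ZMod ℓ) - y * r := by ring
      rw [h11] at h7
      exact h8.div h7

end frob

theorem st_facts {p m : ℕ} (hm : Odd m) (hp : p.Prime) (hpm : p ∣ m) :
    st p % 4 = 1 ∧ Squarefree (st p) ∧ st p ∣ ((8 * m : ℕ) : ℤ) := by
  have h2 : Odd p := by
    obtain ⟨c, rfl⟩ := hpm
    exact (Nat.odd_mul.mp hm).1
  have h3 : p % 4 = 1 ∨ p % 4 = 3 := by
    rw [Nat.odd_iff] at h2
    omega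
  have h4 : Squarefree (p : ℤ) := by
    rw [Int.squarefree_natCast]
    exact hp.prime.squarefree
  have h5 : (p : ℤ) ∣ ((8 * m : ℕ) : ℤ) := by
    exact_mod_cast hpm.mul_left 8
  unfold st
  split_ifs with h
  · exact ⟨by omega, h4, h5⟩
  · refine ⟨by omega, ?_, ?_⟩
    · rw [← Int.squarefree_natAbs, Int.natAbs_neg, Int.natAbs_natCast]
      exact hp.prime.squarefree
    · rw [neg_dvd]; exact h5

open Classical in
/-- FF-E -/
theorem densF : Pool.Agent.H180.FF.PropDensF := by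
  intro m p q hm hp hq hpq hpm hqm hq4 x y z hxy hz heq
  have hm0 : 0 < m := hm.pos
  have : NeZero (8 * m) := ⟨by omega⟩
  obtain ⟨K, _, _, hcy⟩ := Pool.Agent.Q6.RS.exists_cyc (8 * m)
  obtain ⟨ζ, hζ⟩ := IsCyclotomicExtension.exists_isPrimitiveRoot ℚ K (Set.mem_singleton (8 * m))
    (NeZero.ne (8 * m))
  obtain ⟨hst4, hstsf, hstd⟩ := st_facts hm hp hpm
  obtain ⟨ρ, hρ'⟩ := Pool.Agent.Q6.RS.isSquare_int (8 * m) (by omega) ⟨2 * m, by ring⟩ ζ hζ (st p)
    (by rw [Int.odd_iff]; omega) hstd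
  have hρ : ρ ^ 2 = ((st p : ℤ) : K) := by rw [hρ']; ring
  have hqsf : Squarefree (q : ℤ) := by
    rw [Int.squarefree_natCast]
    exact hq.prime.squarefree
  have hst_p : (p : ℤ) ∣ st p := by
    unfold st
    split_ifs
    · exact dvd_refl _
    · rw [dvd_neg]
  have hst_q : ¬ (q : ℤ) ∣ st p := by
    intro h
    have h1 : (q : ℤ) ∣ p := by
      unfold st at h
      split_ifs at h
      · exact h
      · rwa [dvd_neg] at h
    have h2 : q ∣ p := by exact_mod_cast h1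
    exact hpq ((Nat.prime_dvd_prime_iff_eq hq hp).mp h2).symm
  have hβ : ¬ IsSquare ((x : K) + y * ρ) := by
    have h := Pool.Agent.Q210.RS.comm (8 * m) K Unit (fun _ => st p) (fun _ => (q : ℤ))
      (fun _ => x) (fun _ => y) (fun _ => z) (fun _ => ρ)
      (fun _ => ⟨hst4, hstsf, hstd⟩)
      (fun _ => ⟨by omega, hqsf, by exact_mod_cast hqm.mul_left 8⟩)
      (fun _ => ⟨heq, hz⟩) (fun _ => hρ) p q hp hq hpq (by
        rw [Fintype.sum_unique, if_pos ⟨hst_p, dvd_refl _⟩, if_neg (fun h => hst_q h.1)]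
        exact odd_one)
    rw [Fintype.prod_unique] at h
    exact h
  obtain ⟨L, _, _, i, θ, hgal, hθ⟩ := Pool.Agent.Q6.RS.exists_galois ((x : K) + y * ρ)
  have hcard := card_Cs i θ hθ hβ
  have hz0 : 0 < z.natAbs := Int.natAbs_pos.mpr hz
  have hmain := Q283.TW.dens_of L (Cs i θ) (Pool.Agent.H180.FF.Neg m p x y z)
    (8 * m * z.natAbs) (by positivity) (by
    intro ℓ hℓF hℓD φ g hφ
    have hℓ : ℓ.Prime := hℓF.out
    have hℓM : ¬ ℓ ∣ 8 * m := fun h => hℓD (h.mul_right _)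
    have hℓz : ¬ ℓ ∣ z.natAbs := fun h => hℓD (h.mul_left _)
    have hℓz' : ¬ (ℓ : ℤ) ∣ z := by
      rw [Int.natCast_dvd]; exact hℓz
    have hℓ2 : ℓ ≠ 2 := by
      rintro rfl
      exact hℓM (Dvd.dvd.mul_right (by norm_num) _)
    have hℓq : ℓ ≠ q := by
      rintro rfl
      exact hℓM (hqm.mul_left 8)
    have hqz : (((q : ℤ) * z ^ 2 : ℤ) : ZMod ℓ) ≠ 0 := by
      rw [Ne, ZMod.intCast_zmod_eq_zero_iff_dvd]
      intro h
      have hpr : Prime (ℓ : ℤ) := Nat.prime_iff_prime_int.mp hℓ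
      rcases hpr.dvd_or_dvd h with h1 | h1
      · have h2 : ℓ ∣ q := by exact_mod_cast h1
        exact hℓq ((Nat.prime_dvd_prime_iff_eq hℓ hq).mp h2)
      · exact hℓz' (hpr.dvd_of_dvd_pow h1)
    have hroot := frob_root i hζ hℓM hφ
    have hqs : 8 * m ∣ ℓ - 1 → IsSquare ((q : ℕ) : ZMod ℓ) := by
      intro h1
      have : Fact q.Prime := ⟨hq⟩
      rw [← ZMod.exists_sq_eq_prime_iff_of_mod_four_eq_one hq4 hℓ2]
      have h2 : ((ℓ - 1 : ℕ) : ZMod q) = 0 := by
        rw [ZMod.natCast_eq_zero_iff]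
        exact (hqm.mul_left 8).trans h1
      have h3 : ((ℓ : ℕ) : ZMod q) = 1 := by
        rw [← Nat.sub_add_cancel hℓ.one_lt.le, Nat.cast_add, h2, Nat.cast_one, zero_add]
      rw [h3]
      exact ⟨1, by ring⟩
    constructor
    · rintro ⟨-, h1, -, h3⟩
      have hg := hroot.mp h1
      exact ⟨hg, (frob_symbol i hρ hθ heq hℓ2 hqz (hqs h1) hφ hg).mp h3⟩
    · rintro ⟨hg, h2⟩
      have h1 := hroot.mpr hg
      exact ⟨hℓ, h1, hℓz', (frob_symbol i hρ hθ heq hℓ2 hqz (hqs h1) hφ hg).mpr h2⟩)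
  have hlim : (Nat.card (Cs i θ) : ℝ) / (Nat.card Gal(L/ℚ) : ℝ) =
      1 / (2 * (Nat.totient (8 * m) : ℝ)) := by
    have h1 : Module.finrank ℚ K = Nat.totient (8 * m) := by
      exact IsCyclotomicExtension.finrank K
        (Polynomial.cyclotomic.irreducible_rat (NeZero.pos (8 * m)))
    rw [h1] at hcard
    have h2 : 0 < Nat.card Gal(L/ℚ) := Nat.card_pos
    have h3 : (Nat.card (Cs i θ) : ℝ) ≠ 0 := by
      intro h
      have h4 : Nat.card (Cs i θ) = 0 := by exact_mod_cast h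
      rw [h4, zero_mul] at hcard
      omega
    have h5 : 0 < Nat.totient (8 * m) := Nat.totient_pos.mpr (by omega)
    have h6 : (Nat.totient (8 * m) : ℝ) ≠ 0 := by positivity
    rw [← hcard]
    push_cast
    field_simp
  rw [hlim] at hmain
  refine hmain.congr (fun N => ?_)
  unfold M
  congr 1
  rw [Finset.sum_boole]
  symm
  refine congrArg (Nat.cast : ℕ → ℝ) (Nat.subtype_card _ ?_)
  intro n
  rw [Finset.mem_filter]
  unfold pr
  rw [Finset.mem_filter, Finset.mem_range]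
  constructor
  · rintro ⟨⟨h1, -⟩, h2⟩
    exact ⟨by omega, h2⟩
  · rintro ⟨h1, h2⟩
    exact ⟨⟨by omega, h2.1⟩, h2⟩

end Pool.Agent.Q190.FF

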