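import Pool.Agent.H180.FF.Stmts
import Pool.Agent.Q175.RS.Hodge

/-!
# Tate classes are of Hodge type if the prime is `1` modulo the degree
-/

set_option linter.unusedSectionVars false
set_option autoImplicit false

namespace Pool.Agent.Q190.FF

open NumberField Finset Pool.Agent.H916R2 Pool.Agent.Q59.RL Pool.Agent.H916K Pool.Agent.Q175.RS

variable {ℓ : ℕ} [Fact ℓ.Prime]

lemma prim_gen {m : ℕ} {χ : MulChar (ZMod ℓ) ℂ} (hχ : orderOf χ = m) {y : (ZMod ℓ)ˣ}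
    (hy : ∀ x : (ZMod ℓ)ˣ, x ∈ Subgroup.zpowers y) : IsPrimitiveRoot (χ (y : ZMod ℓ)) m := by
  have hgen : ∀ x : (ZMod ℓ)ˣ, ∃ n : ℕ, y ^ n = x := fun x =>
    (IsOfFinOrder.mem_powers_iff_mem_zpowers (isOfFinOrder_of_finite y)).mpr (hy x)
  have hχy1 : χ (y : ZMod ℓ) ^ m = 1 := by
    rw [← hχ, ← MulChar.pow_apply_coe, pow_orderOf_eq_one, MulChar.one_apply_coe]
  refine ⟨hχy1, fun l hl => ?_⟩
  rw [← hχ]
  apply orderOf_dvd_of_pow_eq_one
  ext x
  obtain ⟨n, rfl⟩ := hgen x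
  rw [MulChar.pow_apply_coe, Units.val_pow_eq_pow_val, map_pow, ← pow_mul, mul_comm n l, pow_mul,
    hl, one_pow, ← Units.val_pow_eq_pow_val, MulChar.one_apply_coe]

lemma ext_gen {χ χ' : MulChar (ZMod ℓ) ℂ} {y : (ZMod ℓ)ˣ}
    (hy : ∀ x : (ZMod ℓ)ˣ, x ∈ Subgroup.zpowers y) (h : χ (y : ZMod ℓ) = χ' (y : ZMod ℓ)) :
    χ = χ' := by
  ext x
  obtain ⟨n, rfl⟩ := (IsOfFinOrder.mem_powers_iff_mem_zpowers (isOfFinOrder_of_finite y)).mpr (hy x)
  show χ ((y ^ n : (ZMod ℓ)ˣ) : ZMod ℓ) = χ' ((y ^ n : (ZMod ℓ)ˣ) : ZMod ℓ)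
  rw [Units.val_pow_eq_pow_val, map_pow, map_pow, h]

/-- two characters of the same order are powers of each other -/
lemma exists_pow {m : ℕ} (hm : 0 < m) {χ χ' : MulChar (ZMod ℓ) ℂ} (hχ : orderOf χ = m)
    (hχ' : orderOf χ' = m) : ∃ j : ℕ, j.Coprime m ∧ χ' = χ ^ j := by
  obtain ⟨y, hy⟩ := IsCyclic.exists_generator (α := (ZMod ℓ)ˣ)
  have h1 := prim_gen hχ hy
  have h2 := prim_gen hχ' hy
  have : NeZero m := ⟨hm.ne'⟩
  obtain ⟨j, -, hj⟩ := h1.eq_pow_of_pow_eq_one h2.pow_eq_one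
  refine ⟨j, ?_, ?_⟩
  · rw [← hj] at h2
    exact (h1.pow_iff_coprime hm j).1 h2
  · apply ext_gen hy
    rw [MulChar.pow_apply_coe, hj]

lemma map_gauss {A B : Type} [CommRing A] [CommRing B] (f : A →+* B) {χA : MulChar (ZMod ℓ) A}
    {χB : MulChar (ZMod ℓ) B} {ψA : AddChar (ZMod ℓ) A} {ψB : AddChar (ZMod ℓ) B}
    (h1 : ∀ x, f (χA x) = χB x) (h2 : ∀ x, f (ψA x) = ψB x) (a : ℕ) :
    f (gaussSum (χA ^ a) ψA) = gaussSum (χB ^ a) ψB := by
  unfold gaussSum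
  rw [map_sum]
  refine sum_congr rfl fun x _ => ?_
  rw [map_mul, h2]
  congr 1
  by_cases hx : IsUnit x
  · obtain ⟨u, rfl⟩ := hx
    rw [MulChar.pow_apply_coe, MulChar.pow_apply_coe, map_pow, h1]
  · rw [MulChar.map_nonunit _ hx, MulChar.map_nonunit _ hx, map_zero]

lemma exists_desc {L : Type} [Field L] (σ : L →+* ℂ) (χ : MulChar (ZMod ℓ) ℂ)
    (h : ∀ x : ZMod ℓ, ∃ y : L, σ y = χ x) : ∃ χL : MulChar (ZMod ℓ) L, ∀ x, σ (χL x) = χ x := by
  choose f hf using h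
  exact ⟨{ toFun := f
           map_one' := σ.injective (by rw [hf, map_one, map_one])
           map_mul' := fun a b => σ.injective (by rw [hf, map_mul, map_mul, hf, hf])
           map_nonunit' := fun a ha => σ.injective (by rw [hf, MulChar.map_nonunit χ ha, map_zero]) },
    hf⟩

lemma exists_descA {L : Type} [Field L] (σ : L →+* ℂ) (ψ : AddChar (ZMod ℓ) ℂ)
    (h : ∀ x : ZMod ℓ, ∃ y : L, σ y = ψ x) : ∃ ψL : AddChar (ZMod ℓ) L, ∀ x, σ (ψL x) = ψ x := by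
  choose f hf using h
  exact ⟨{ toFun := f
           map_zero_eq_one' := σ.injective (by rw [hf, map_one, AddChar.map_zero_eq_one])
           map_add_eq_mul' := fun a b => σ.injective (by
             rw [hf, map_mul, AddChar.map_add_eq_mul, hf, hf]) },
    hf⟩

lemma exists_field (N : ℕ) (hN : 0 < N) : ∃ (L : Type) (_ : Field L) (_ : NumberField L)
    (_ : IsGalois ℚ L) (ζ : L), IsPrimitiveRoot ζ N := by
  have : NeZero N := ⟨hN.ne'⟩
  have h0 : NeZero ((N : ℕ) : ℚ) := ⟨Nat.cast_ne_zero.mpr hN.ne'⟩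
  have h1 := CyclotomicField.isCyclotomicExtension N ℚ
  have h2 : CyclotomicField.algebra N ℚ = DivisionRing.toRatAlgebra := Subsingleton.elim _ _
  rw [h2] at h1
  have h3 : IsCyclotomicExtension {N} ℚ (CyclotomicField N ℚ) := h1
  exact ⟨CyclotomicField N ℚ, inferInstance, inferInstance,
    IsCyclotomicExtension.isGalois {N} ℚ _, _, IsCyclotomicExtension.zeta_spec N ℚ _⟩

/-- Galois action on the equation -/
lemma transfer {m : ℕ} (hm : 0 < m) {χ : MulChar (ZMod ℓ) ℂ} {ψ : AddChar (ZMod ℓ) ℂ} (hψ : ψ ≠ 1)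
    (hχ : orderOf χ = m) (s : Multiset (ZMod m)) {n N : ℕ}
    (hE : (s.map fun a => gaussSum (χ ^ a.val) ψ).prod ^ n = (ℓ : ℂ) ^ N) {j : ℕ}
    (hj : j.Coprime m) : ∃ ψ' : AddChar (ZMod ℓ) ℂ, ψ' ≠ 1 ∧
      (s.map fun a => gaussSum ((χ ^ j) ^ a.val) ψ').prod ^ n = (ℓ : ℂ) ^ N := by
  classical
  have hℓ : ℓ.Prime := Fact.out
  have hml : NeZero (m * ℓ) := ⟨(Nat.mul_pos hm hℓ.pos).ne'⟩
  obtain ⟨L, _, _, hgal, ζL, hζL⟩ := exists_field (m * ℓ) (Nat.mul_pos hm hℓ.pos)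
  obtain ⟨σ⟩ : Nonempty (L →+* ℂ) := inferInstance
  have hζC : IsPrimitiveRoot (σ ζL) (m * ℓ) := hζL.map_of_injective σ.injective
  have hval : ∀ w : ℂ, w ^ (m * ℓ) = 1 → ∃ y : L, σ y = w := by
    intro w hw
    obtain ⟨i, -, hi⟩ := hζC.eq_pow_of_pow_eq_one hw
    exact ⟨ζL ^ i, by rw [map_pow, hi]⟩
  have hχm : ∀ u : (ZMod ℓ)ˣ, χ (u : ZMod ℓ) ^ m = 1 := fun u => by
    rw [← hχ, ← MulChar.pow_apply_coe, pow_orderOf_eq_one, MulChar.one_apply_coe]
  obtain ⟨χL, hχL⟩ := exists_desc σ χ (by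
    intro x
    by_cases hx : IsUnit x
    · obtain ⟨u, rfl⟩ := hx
      exact hval _ (by rw [pow_mul, hχm, one_pow])
    · exact ⟨0, by rw [MulChar.map_nonunit _ hx, map_zero]⟩)
  obtain ⟨ψL, hψL⟩ := exists_descA σ ψ (by
    intro x
    apply hval
    have h1 : ψ x ^ ℓ = 1 := by
      rw [← AddChar.map_nsmul_eq_pow]
      have : ℓ • x = 0 := by
        rw [nsmul_eq_mul, CharP.cast_eq_zero, zero_mul]
      rw [this, AddChar.map_zero_eq_one]
    rw [mul_comm, pow_mul, h1, one_pow])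
  have hζm : IsPrimitiveRoot (ζL ^ ℓ) m := hζL.pow (Nat.mul_pos hm hℓ.pos) (mul_comm m ℓ)
  obtain ⟨g, hg⟩ := exists_aut hm hζm hj
  have hg' : ∀ w : L, w ^ m = 1 → g w = w ^ j := by
    intro w hw
    have : NeZero m := ⟨hm.ne'⟩
    obtain ⟨i, -, hi⟩ := hζm.eq_pow_of_pow_eq_one hw
    rw [← hi, map_pow, hg, ← pow_mul (ζL ^ ℓ), ← pow_mul (ζL ^ ℓ), mul_comm]
  have hEL : (s.map fun a => gaussSum (χL ^ a.val) ψL).prod ^ n = (ℓ : L) ^ N := by
    apply σ.injective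
    rw [map_pow, map_multiset_prod, Multiset.map_map, map_pow, map_natCast, ← hE]
    congr 2
    refine Multiset.map_congr rfl fun a _ => ?_
    exact map_gauss σ hχL hψL a.val
  set f : L →+* ℂ := σ.comp (g : L →+* L) with hf
  refine ⟨f.toMonoidHom.compAddChar ψL, ?_, ?_⟩
  · intro h
    apply hψ
    ext x
    have h1 : f (ψL x) = 1 := by
      have h2 := DFunLike.congr_fun h x
      exact h2
    have h2 : ψL x = 1 := f.injective (by rw [h1, map_one])
    rw [← hψL, h2, map_one]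
    rfl
  · have h1 := congrArg f hEL
    rw [map_pow, map_multiset_prod, Multiset.map_map, map_pow, map_natCast] at h1
    rw [← h1]
    congr 2
    refine Multiset.map_congr rfl fun a _ => ?_
    symm
    refine map_gauss f (fun x => ?_) (fun x => rfl) a.val
    by_cases hx : IsUnit x
    · obtain ⟨u, rfl⟩ := hx
      rw [MulChar.pow_apply_coe, ← hχL, ← map_pow]
      show σ (g (χL (u : ZMod ℓ))) = _
      rw [hg']
      apply σ.injective
      rw [map_pow, hχL, hχm, map_one]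
    · rw [MulChar.map_nonunit _ hx, MulChar.map_nonunit _ hx, map_zero]

theorem core {m n : ℕ} (hm : 2 ≤ m) (hn : 0 < n) {χ : MulChar (ZMod ℓ) ℂ}
    {ψ : AddChar (ZMod ℓ) ℂ} (hψ : ψ ≠ 1) (hχ : orderOf χ = m) (s : Multiset (ZMod m))
    (h0 : (0 : ZMod m) ∉ s)
    (hE : (s.map fun a => gaussSum (χ ^ a.val) ψ).prod ^ (2 * n) =
      (ℓ : ℂ) ^ (n * Multiset.card s)) (t : (ZMod m)ˣ) :
    2 * (s.map fun a => ((t : ZMod m) * a).val).sum = m * Multiset.card s := by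
  classical
  have hmz : NeZero m := ⟨by omega⟩
  have hℓ : ℓ.Prime := Fact.out
  have hmdvd : m ∣ ℓ - 1 := by
    have h1 := MulChar.orderOf_dvd_card_sub_one (F := ZMod ℓ) χ
    rwa [hχ, ZMod.card] at h1
  have hℓ3 : 3 ≤ ℓ := by
    have h1 := hℓ.two_le
    have h2 := Nat.le_of_dvd (by omega) hmdvd
    omega
  obtain ⟨k, _, _, φ, Γ, _, v, hv1, hv2, hv3⟩ := exists_val hℓ
  have hv : Above φ v := ⟨hv1, hv2, hv3⟩
  obtain ⟨χ1, hχ1, hχφ⟩ := exists_teich (ℓ := ℓ) φ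
  have hinj : Function.Injective (algebraMap AI ℂ) := Subtype.val_injective
  obtain ⟨e, he⟩ := hmdvd
  have he0 : 0 < e := Nat.pos_of_ne_zero (by rintro rfl; rw [mul_zero] at he; omega)
  set τ : ℕ := (t : ZMod m).val with hτ
  have hτcop : τ.Coprime m := ZMod.val_coe_unit_coprime t
  set χ2 : MulChar (ZMod ℓ) AI := (χ1 ^ e) ^ τ with hχ2
  have hord1 : orderOf (χ1 ^ e) = m := by
    rw [orderOf_pow_of_dvd he0.ne' (by rw [hχ1, he]; exact dvd_mul_left e m), hχ1, he,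
      Nat.mul_div_cancel _ he0]
  have hordχ : orderOf χ2 = m := by
    rw [hχ2, Nat.Coprime.orderOf_pow (by rw [hord1]; exact hτcop.symm), hord1]
  set χ' : MulChar (ZMod ℓ) ℂ := χ2.ringHomComp (algebraMap AI ℂ) with hχ'
  have hordχ' : orderOf χ' = m := by
    rw [← hordχ]
    exact orderOf_injective (MulChar.ringHomCompHom (algebraMap AI ℂ))
      (MulChar.injective_ringHomComp hinj) χ2
  obtain ⟨j, hj, hjχ⟩ := exists_pow (by omega) hχ hordχ'
  obtain ⟨ψ', hψ', hE'⟩ := transfer (by omega) hψ hχ s hE hj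
  rw [← hjχ] at hE'
  -- the root of unity
  have hψℓ : ψ' 1 ^ ℓ = 1 := by
    rw [← AddChar.map_nsmul_eq_pow]
    have : ℓ • (1 : ZMod ℓ) = 0 := by
      rw [nsmul_eq_mul, CharP.cast_eq_zero, zero_mul]
    rw [this, AddChar.map_zero_eq_one]
  have hψx : ∀ x : ZMod ℓ, ψ' x = ψ' 1 ^ x.val := by
    intro x
    rw [← AddChar.map_nsmul_eq_pow, nsmul_eq_mul, mul_one, ZMod.natCast_val, ZMod.cast_id', id]
  have hψ1 : ψ' 1 ≠ 1 := by
    intro h
    apply hψ'
    ext x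
    rw [hψx, h, one_pow]
    rfl
  obtain ⟨ζ, hζ, hζψ⟩ : ∃ ζ : AI, IsPrimitiveRoot ζ ℓ ∧ (ζ : ℂ) = ψ' 1 := by
    have h2 : IsIntegral ℤ (ψ' 1) := by
      apply IsIntegral.of_pow hℓ.pos
      rw [hψℓ]
      exact isIntegral_one
    refine ⟨⟨_, h2⟩, ?_, rfl⟩
    have h3 : (⟨ψ' 1, h2⟩ : AI) ^ ℓ = 1 := Subtype.ext (by simpa using hψℓ)
    have h4 : orderOf (⟨ψ' 1, h2⟩ : AI) = ℓ := orderOf_eq_prime h3 (by
      intro h
      apply hψ1
      exact congrArg Subtype.val h)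
    have h5 := IsPrimitiveRoot.orderOf (⟨ψ' 1, h2⟩ : AI)
    rwa [h4] at h5
  set ψA := AddChar.zmodChar ℓ hζ.pow_eq_one with hψdef
  have hψA : ∀ x, algebraMap AI ℂ (ψA x) = ψ' x := by
    intro x
    rw [hψdef, AddChar.zmodChar_apply, map_pow, hψx]
    congr 1
  have hχA : ∀ x, algebraMap AI ℂ (χ2 x) = χ' x := fun x => rfl
  have h2 := congrArg v hE'
  rw [map_pow, map_multiset_prod, Multiset.map_map, map_pow] at h2
  set π := v (((ζ - 1 : AI)) : ℂ) with hπ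
  have hg : ∀ a ∈ s, v (gaussSum (χ' ^ a.val) ψ') = π ^ (e * ((t : ZMod m) * a).val) := by
    intro a ha
    have e1 : gaussSum (χ' ^ a.val) ψ' = ((gaussSum (χ2 ^ a.val) ψA : AI) : ℂ) :=
      (map_gauss (algebraMap AI ℂ) hχA hψA a.val).symm
    have e2 : χ2 ^ a.val = χ1 ^ (e * ((t : ZMod m) * a).val) := by
      rw [hχ2, ← pow_mul, ← pow_mul, pow_eq_pow_iff_modEq, hχ1, he, ZMod.val_mul, mul_comm m e]
      exact (Nat.ModEq.mul_left' e (Nat.mod_modEq _ _)).symm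
    have e3 : (t : ZMod m) * a ≠ 0 := by
      intro h
      have h7 := (t.isUnit.mul_right_eq_zero).mp h
      rw [h7] at ha
      exact h0 ha
    have e4 : 0 < ((t : ZMod m) * a).val := Nat.pos_of_ne_zero
      (fun h => e3 ((ZMod.val_eq_zero _).mp h))
    have e5 := ZMod.val_lt ((t : ZMod m) * a)
    have e6 : e * ((t : ZMod m) * a).val ≤ e * (m - 1) := Nat.mul_le_mul_left e (by omega)
    have e7 : e * (m - 1) = ℓ - 1 - e := by
      rw [he, Nat.mul_sub, mul_one, mul_comm]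
    rw [e1, e2]
    exact v_gauss hv hζ hχ1 hχφ hℓ3 _ (Nat.mul_pos he0 e4) (by omega)
  have e1 : (s.map (v ∘ fun a => gaussSum (χ' ^ a.val) ψ')) =
      s.map fun a => π ^ (e * ((t : ZMod m) * a).val) := Multiset.map_congr rfl hg
  rw [e1] at h2
  have hprodpow : ∀ s : Multiset (ZMod m),
      (s.map fun a => π ^ (e * ((t : ZMod m) * a).val)).prod =
        π ^ (e * (s.map fun a => ((t : ZMod m) * a).val).sum) := by
    intro s
    induction s using Multiset.induction_on with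
    | empty => simp
    | cons a s ih =>
      rw [Multiset.map_cons, Multiset.prod_cons, ih, Multiset.map_cons, Multiset.sum_cons,
        ← pow_add, mul_add]
  rw [hprodpow] at h2
  -- the valuation of `ℓ`
  have hπ0 : π ≠ 0 := by
    rw [hπ, Valuation.ne_zero_iff]
    intro h0
    have h7 : (ζ : ℂ) = 1 := by
      have : ((ζ - 1 : AI) : ℂ) = (ζ : ℂ) - 1 := by push_cast; ring
      rw [this] at h0
      exact sub_eq_zero.mp h0
    exact hζ.ne_one hℓ.one_lt (Subtype.ext h7)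
  have hπ1 : π < 1 := v_pi hv hζ
  have hvℓ : v ((ℓ : ℂ)) = π ^ (ℓ - 1) := by
    refine le_antisymm (v_ell hv hζ) ?_
    have hprim : (AddChar.zmodChar ℓ hζ.pow_eq_one).IsPrimitive :=
      AddChar.zmodChar_primitive_of_primitive_root ℓ hζ
    have hne : χ1 ≠ 1 := by
      intro h; rw [h, orderOf_one] at hχ1; omega
    have h3 := gaussSum_mul_gaussSum_pow_orderOf_sub_one hne hprim
    rw [hχ1] at h3
    have h4 := congrArg (fun z : AI => v (z : ℂ)) h3
    push_cast at h4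
    rw [map_mul, map_mul] at h4
    have hneg : v ((χ1 (-1) : AI) : ℂ) = 1 := by
      apply hv.root (n := 2) (by norm_num)
      rw [← map_pow]
      have : ((-1 : ZMod ℓ)) ^ 2 = 1 := by ring
      rw [this, MulChar.map_one]
    rw [hneg, one_mul, ZMod.card, v_gauss_one hv hζ hχ1 hχφ hℓ3, show ℓ - 1 - 1 = ℓ - 2 by omega,
      v_gauss hv hζ hχ1 hχφ hℓ3 (ℓ - 2) (by omega) le_rfl, ← pow_succ',
      show ℓ - 2 + 1 = ℓ - 1 by omega] at h4
    exact h4.le
  rw [hvℓ, ← pow_mul, ← pow_mul] at h2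
  have h3 := pow_right_injective₀ (zero_lt_iff.mpr hπ0) hπ1.ne h2
  rw [he] at h3
  have h4 : (e * n) * (2 * (s.map fun a => ((t : ZMod m) * a).val).sum) =
      (e * n) * (m * Multiset.card s) := by
    calc (e * n) * (2 * (s.map fun a => ((t : ZMod m) * a).val).sum)
        = e * (s.map fun a => ((t : ZMod m) * a).val).sum * (2 * n) := by ring
      _ = m * e * (n * Multiset.card s) := h3
      _ = _ := by ring
  exact Nat.eq_of_mul_eq_mul_left (Nat.mul_pos he0 hn) h4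

/-- FF-C -/
theorem hodgeF : Pool.Agent.H180.FF.PropHodgeF := by
  intro ℓ m n _ _ hm hn χ ψ hψ hχ s h0 hsum hE
  have hk := core hm hn hψ hχ s h0 hE
  refine ⟨h0, ?_, hsum, hk⟩
  have h1 := hk 1
  have h2 : (s.map fun a => (((1 : (ZMod m)ˣ) : ZMod m) * a).val) = s.map fun a => a.val := by
    refine Multiset.map_congr rfl fun a _ => ?_
    rw [Units.val_one, one_mul]
  rw [h2] at h1
  have h3 : m ∣ (s.map fun a => a.val).sum := by
    rw [← ZMod.natCast_eq_zero_iff, Nat.cast_multiset_sum, Multiset.map_map]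
    have : (s.map (Nat.cast ∘ fun a : ZMod m => a.val) : Multiset (ZMod m)) = s := by
      conv_rhs => rw [← Multiset.map_id s]
      refine Multiset.map_congr rfl fun a _ => ?_
      show ((a.val : ℕ) : ZMod m) = id a
      rw [ZMod.natCast_val, ZMod.cast_id', id]
    rw [this, hsum]
  obtain ⟨c, hc⟩ := h3
  rw [hc] at h1
  have h4 : m * (2 * c) = m * Multiset.card s := by
    rw [← h1]; ring
  have h5 := Nat.eq_of_mul_eq_mul_left (by omega : 0 < m) h4
  exact ⟨c, by omega⟩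

end Pool.Agent.Q190.FF

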